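import Mathlib

/-!
# MP_8a6196_an: the free Banach lattice over a Euclidean space is not octahedral
-/

open scoped ENNReal

namespace Pool.Agent.Results.MP_8a6196_an.NotOctahedral

noncomputable section

variable {E : Type*} [NormedAddCommGroup E] [NormedSpace ℝ E]

/-- A finite family of functionals with `sup_{‖x‖ ≤ 1} ∑ |x_i(x)| ≤ 1`. -/
def Admissible {m : ℕ} (x : Fin m → StrongDual ℝ E) : Prop :=
  ∀ v : E, ‖v‖ ≤ 1 → ∑ i, |x i v| ≤ 1

/-- The norm of the free Banach lattice, with values in `[0, ∞]`. -/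
def fnorm (f : StrongDual ℝ E → ℝ) : ℝ≥0∞ :=
  ⨆ (m : ℕ) (x : Fin m → StrongDual ℝ E) (_ : Admissible x), ∑ i, ENNReal.ofReal |f (x i)|

/-- The evaluation `δ_v`. -/
def delta (v : E) : StrongDual ℝ E → ℝ := fun x => x v

/-- The vector sublattice generated by the functions `δ_v`, `v ∈ E`. -/
inductive Lat : (StrongDual ℝ E → ℝ) → Prop
  | delta (v : E) : Lat (delta v)
  | add {f g : StrongDual ℝ E → ℝ} : Lat f → Lat g → Lat (f + g)
  | smul (c : ℝ) {f : StrongDual ℝ E → ℝ} : Lat f → Lat (c • f)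
  | sup {f g : StrongDual ℝ E → ℝ} : Lat f → Lat g → Lat (f ⊔ g)

/-- Positively homogeneous functions. -/
def PosHom (f : StrongDual ℝ E → ℝ) : Prop := ∀ (t : ℝ) (x : StrongDual ℝ E), 0 ≤ t → f (t • x) = t * f x

/-- `FBL[E]`: the norm closure of the sublattice generated by the `δ_v` in the space of the positively
homogeneous functions of finite norm. -/
def InFBL (f : StrongDual ℝ E → ℝ) : Prop :=
  PosHom f ∧ fnorm f < ⊤ ∧ ∀ ε : ℝ, 0 < ε → ∃ g, Lat g ∧ fnorm (f - g) ≤ ENNReal.ofReal ε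

variable (E) in
/-- The norm of `FBL[E]` is octahedral. -/
def Octahedral : Prop :=
  ∀ Y : Submodule ℝ (StrongDual ℝ E → ℝ), FiniteDimensional ℝ Y → (∀ z ∈ Y, InFBL z) →
    ∀ ε : ℝ, 0 < ε → ∃ y : StrongDual ℝ E → ℝ, InFBL y ∧ fnorm y = 1 ∧
      ∀ z ∈ Y, ∀ c : ℝ, ENNReal.ofReal (1 - ε) * (fnorm z + ENNReal.ofReal |c|) ≤ fnorm (z + c • y)

/-! ### Basic facts -/

lemma le_fnorm (f : StrongDual ℝ E → ℝ) {m : ℕ} {x : Fin m → StrongDual ℝ E} (hx : Admissible x) :
    ∑ i, ENNReal.ofReal |f (x i)| ≤ fnorm f :=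
  le_iSup_of_le m (le_iSup_of_le x (le_iSup_of_le hx le_rfl))

lemma sum_le_of_fnorm_le {f : StrongDual ℝ E → ℝ} {C : ℝ} (hC : 0 ≤ C)
    (hf : fnorm f ≤ ENNReal.ofReal C) {m : ℕ} {x : Fin m → StrongDual ℝ E} (hx : Admissible x) :
    ∑ i, |f (x i)| ≤ C := by
  have h := (le_fnorm f hx).trans hf
  rw [← ENNReal.ofReal_sum_of_nonneg fun i _ => abs_nonneg _, ENNReal.ofReal_le_ofReal_iff hC] at h
  exact h

lemma fnorm_le {f : StrongDual ℝ E → ℝ} {C : ℝ}
    (h : ∀ (m : ℕ) (x : Fin m → StrongDual ℝ E), Admissible x → ∑ i, |f (x i)| ≤ C) :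
    fnorm f ≤ ENNReal.ofReal C := by
  refine iSup_le fun m => iSup_le fun x => iSup_le fun hx => ?_
  rw [← ENNReal.ofReal_sum_of_nonneg fun i _ => abs_nonneg _]
  exact ENNReal.ofReal_le_ofReal (h m x hx)

lemma exists_of_lt_fnorm {f : StrongDual ℝ E → ℝ} {C : ℝ} (h : ENNReal.ofReal C < fnorm f) :
    ∃ (m : ℕ) (x : Fin m → StrongDual ℝ E), Admissible x ∧ C < ∑ i, |f (x i)| := by
  by_contra hcon
  push Not at hcon
  exact absurd (fnorm_le hcon) (not_le.2 h)

lemma Lat.bound {f : StrongDual ℝ E → ℝ} (h : Lat f) :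
    PosHom f ∧ ∃ C : ℝ, ∀ (m : ℕ) (x : Fin m → StrongDual ℝ E), Admissible x → ∑ i, |f (x i)| ≤ C := by
  induction h with
  | delta v =>
    refine ⟨fun t x _ => rfl, ‖v‖, fun m x hx => ?_⟩
    by_cases hv : v = 0
    · subst hv
      simp [Pool.Agent.Results.MP_8a6196_an.NotOctahedral.delta]
    · have hv' : 0 < ‖v‖ := norm_pos_iff.2 hv
      have h1 := hx (‖v‖⁻¹ • v) (by rw [norm_smul, norm_inv, norm_norm, inv_mul_cancel₀ hv'.ne'])
      have h2 : ∀ i, |x i (‖v‖⁻¹ • v)| = ‖v‖⁻¹ * |x i v| := by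
        intro i
        rw [map_smul, smul_eq_mul, abs_mul, abs_of_pos (inv_pos.2 hv')]
      simp_rw [h2] at h1
      rw [← Finset.mul_sum, inv_mul_le_iff₀ hv', mul_one] at h1
      exact h1
  | add _ _ h1 h2 =>
    obtain ⟨p1, C1, h1⟩ := h1
    obtain ⟨p2, C2, h2⟩ := h2
    refine ⟨fun t x ht => ?_, C1 + C2, fun m x hx => ?_⟩
    · simp only [Pi.add_apply, p1 t x ht, p2 t x ht]; ring
    · calc _ ≤ ∑ i, (|_| + |_|) := Finset.sum_le_sum fun i _ => abs_add_le _ _
        _ ≤ C1 + C2 := by rw [Finset.sum_add_distrib]; exact add_le_add (h1 m x hx) (h2 m x hx)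
  | smul c _ h1 =>
    obtain ⟨p1, C1, h1⟩ := h1
    refine ⟨fun t x ht => ?_, |c| * C1, fun m x hx => ?_⟩
    · simp only [Pi.smul_apply, p1 t x ht, smul_eq_mul]; ring
    · simp only [Pi.smul_apply, smul_eq_mul, abs_mul]
      rw [← Finset.mul_sum]
      exact mul_le_mul_of_nonneg_left (h1 m x hx) (abs_nonneg _)
  | sup _ _ h1 h2 =>
    obtain ⟨p1, C1, h1⟩ := h1
    obtain ⟨p2, C2, h2⟩ := h2
    refine ⟨fun t x ht => ?_, C1 + C2, fun m x hx => ?_⟩
    · simp only [Pi.sup_apply, p1 t x ht, p2 t x ht]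
      exact (mul_max_of_nonneg _ _ ht).symm
    · calc _ ≤ ∑ i, (|_| + |_|) := Finset.sum_le_sum fun i _ => by
            simp only [Pi.sup_apply]
            exact (abs_max_le_max_abs_abs).trans (max_le_add_of_nonneg (abs_nonneg _) (abs_nonneg _))
        _ ≤ C1 + C2 := by rw [Finset.sum_add_distrib]; exact add_le_add (h1 m x hx) (h2 m x hx)

lemma Lat.inFBL {f : StrongDual ℝ E → ℝ} (h : Lat f) : InFBL f := by
  obtain ⟨hp, C, hC⟩ := h.bound
  refine ⟨hp, lt_of_le_of_lt (fnorm_le hC) ENNReal.ofReal_lt_top, fun ε hε => ⟨f, h, ?_⟩⟩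
  refine fnorm_le fun m x _ => ?_
  simp [hε.le]

/-- `|g(x)| ≤ ‖x‖` if the norm of `g` is at most one -/
lemma abs_le_norm {g : StrongDual ℝ E → ℝ} (hp : PosHom g) (hg : fnorm g ≤ 1)
    (x : StrongDual ℝ E) : |g x| ≤ ‖x‖ := by
  by_cases hx : x = 0
  · subst hx
    have := hp 0 0 le_rfl
    simp only [smul_zero, zero_mul] at this
    simp [this]
  · have hx' : 0 < ‖x‖ := norm_pos_iff.2 hx
    have hadm : Admissible (fun _ : Fin 1 => ‖x‖⁻¹ • x) := by
      intro v hv
      simp only [Finset.univ_unique, Fin.default_eq_zero, Fin.isValue, Finset.sum_const,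
        Finset.card_singleton, one_smul, ContinuousLinearMap.smul_apply, smul_eq_mul]
      rw [abs_mul, abs_of_pos (inv_pos.2 hx'), inv_mul_le_iff₀ hx', mul_one]
      exact (x.le_opNorm v).trans (by nlinarith)
    have h := sum_le_of_fnorm_le zero_le_one (by simpa using hg) hadm
    simp only [Finset.univ_unique, Fin.default_eq_zero, Fin.isValue, Finset.sum_const,
      Finset.card_singleton, one_smul] at h
    rw [hp _ _ (inv_pos.2 hx').le, abs_mul, abs_of_pos (inv_pos.2 hx'), inv_mul_le_iff₀ hx', mul_one] at h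
    exact h

/-! ### The Euclidean space -/

variable {ι : Type*} [Fintype ι] [DecidableEq ι]

/-- the coordinates of a functional -/
def co (x : StrongDual ℝ (EuclideanSpace ℝ ι)) (j : ι) : ℝ := x (EuclideanSpace.single j 1)

/-- the sum of the absolute values of the other coordinates -/
def oth (a : ι) (x : StrongDual ℝ (EuclideanSpace ℝ ι)) : ℝ := ∑ j ∈ Finset.univ.erase a, |co x j|

lemma oth_nonneg (a : ι) (x : StrongDual ℝ (EuclideanSpace ℝ ι)) : 0 ≤ oth a x :=
  Finset.sum_nonneg fun _ _ => abs_nonneg _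

/-- the test functions -/
def fa (a : ι) (x : StrongDual ℝ (EuclideanSpace ℝ ι)) : ℝ := max (|co x a| - oth a x) 0

lemma lat_zero : Lat (0 : StrongDual ℝ E → ℝ) := by
  have := Lat.smul 0 (Lat.delta (0 : E))
  rwa [zero_smul] at this

lemma lat_abs (v : E) : Lat (fun x : StrongDual ℝ E => |x v|) := by
  have h := Lat.sup (Lat.delta v) (Lat.smul (-1) (Lat.delta v))
  have e : (fun x : StrongDual ℝ E => |x v|) = delta v ⊔ (-1 : ℝ) • delta v := by
    funext x
    simp [delta, abs_eq_max_neg]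
  rw [e]
  exact h

lemma lat_sum {κ : Type*} (s : Finset κ) (F : κ → StrongDual ℝ E → ℝ) (h : ∀ k, Lat (F k)) :
    Lat (∑ k ∈ s, F k) := by
  classical
  induction s using Finset.induction_on with
  | empty => simpa using lat_zero
  | insert k s hk ih => rw [Finset.sum_insert hk]; exact Lat.add (h k) ih

lemma lat_fa (a : ι) : Lat (fa a) := by
  have h := Lat.sup (Lat.add (lat_abs (EuclideanSpace.single a (1 : ℝ)))
    (Lat.smul (-1) (lat_sum (Finset.univ.erase a)
      (fun j => fun x : StrongDual ℝ (EuclideanSpace ℝ ι) => |x (EuclideanSpace.single j 1)|)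
      fun j => lat_abs _))) lat_zero
  convert h using 1
  funext x
  simp only [fa, oth, co, sub_eq_add_neg, Pi.sup_apply, Pi.add_apply, Pi.smul_apply, Pi.zero_apply,
    Finset.sum_apply, smul_eq_mul, neg_mul, one_mul]

lemma apply_eq (x : StrongDual ℝ (EuclideanSpace ℝ ι)) (v : EuclideanSpace ℝ ι) :
    x v = ∑ j, v j * co x j := by
  conv_lhs => rw [← (EuclideanSpace.basisFun ι ℝ).sum_repr v]
  rw [map_sum]
  refine Finset.sum_congr rfl fun j _ => ?_
  rw [map_smul, smul_eq_mul]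
  simp [co]

lemma abs_apply_le (x : StrongDual ℝ (EuclideanSpace ℝ ι)) {v : EuclideanSpace ℝ ι} (hv : ‖v‖ ≤ 1)
    (a : ι) : |x v| ≤ |v a| * |co x a| + oth a x := by
  have hc : ∀ j, |v j| ≤ 1 := fun j => by
    have := EuclideanSpace.norm_eq v
    have h2 : |v j| ≤ ‖v‖ := by
      have := PiLp.norm_apply_le v j
      simpa using this
    linarith
  rw [apply_eq]
  calc |∑ j, v j * co x j| ≤ ∑ j, |v j * co x j| := Finset.abs_sum_le_sum_abs _ _
    _ = |v a * co x a| + ∑ j ∈ Finset.univ.erase a, |v j * co x j| :=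
        (Finset.add_sum_erase _ _ (Finset.mem_univ a)).symm
    _ ≤ _ := by
        rw [abs_mul]
        refine add_le_add le_rfl (Finset.sum_le_sum fun j _ => ?_)
        rw [abs_mul]
        exact mul_le_of_le_one_left (abs_nonneg _) (hc j)

lemma norm_le_co (x : StrongDual ℝ (EuclideanSpace ℝ ι)) (a : ι) : ‖x‖ ≤ |co x a| + oth a x := by
  refine ContinuousLinearMap.opNorm_le_of_unit_norm (by positivity [oth_nonneg a x]) fun v hv => ?_
  have h1 := abs_apply_le x hv.le a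
  have h2 : |v a| ≤ 1 := by
    have := PiLp.norm_apply_le v a
    rw [hv] at this
    simpa using this
  rw [Real.norm_eq_abs]
  have := mul_le_of_le_one_left (abs_nonneg (co x a)) h2
  linarith

lemma sum_co_le {m : ℕ} {x : Fin m → StrongDual ℝ (EuclideanSpace ℝ ι)} (hx : Admissible x) (a : ι) :
    ∑ i, |co (x i) a| ≤ 1 :=
  hx (EuclideanSpace.single a 1) (by simp)

lemma fa_nonneg (a : ι) (x : StrongDual ℝ (EuclideanSpace ℝ ι)) : 0 ≤ fa a x := le_max_right _ _

lemma fa_le (a : ι) (x : StrongDual ℝ (EuclideanSpace ℝ ι)) : fa a x ≤ |co x a| :=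
  max_le (by linarith [oth_nonneg a x]) (abs_nonneg _)

lemma fnorm_fa (a : ι) : fnorm (fa a) = 1 := by
  apply le_antisymm
  · rw [← ENNReal.ofReal_one]
    refine fnorm_le fun m x hx => ?_
    calc ∑ i, |fa a (x i)| ≤ ∑ i, |co (x i) a| := Finset.sum_le_sum fun i _ => by
          rw [abs_of_nonneg (fa_nonneg _ _)]; exact fa_le _ _
      _ ≤ 1 := sum_co_le hx a
  · have hadm : Admissible (fun _ : Fin 1 => (EuclideanSpace.proj a : StrongDual ℝ (EuclideanSpace ℝ ι))) := by
      intro v hv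
      have := PiLp.norm_apply_le v a
      simp only [Finset.univ_unique, Finset.sum_const, Finset.card_singleton, one_smul]
      exact (by simpa using this : |v a| ≤ ‖v‖).trans hv
    have h := le_fnorm (fa a) hadm
    refine le_trans (le_of_eq ?_) h
    have e1 : co (EuclideanSpace.proj a : StrongDual ℝ (EuclideanSpace ℝ ι)) a = 1 := by simp [co]
    have e2 : oth a (EuclideanSpace.proj a : StrongDual ℝ (EuclideanSpace ℝ ι)) = 0 := by
      unfold oth
      refine Finset.sum_eq_zero fun j hj => ?_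
      have hja := Finset.ne_of_mem_erase hj
      simp [co, hja.symm]
    simp [fa, e1, e2]

/-- **The main estimate.** -/
lemma key [Nonempty ι] (a : ι) {g : StrongDual ℝ (EuclideanSpace ℝ ι) → ℝ} (hp : PosHom g)
    (hg : fnorm g ≤ 1) {η : ℝ} (hη : η = 1 / (200 * Fintype.card ι))
    (h : ENNReal.ofReal (1 - η ^ 2) * (1 + 1) ≤ fnorm (fa a + g)) :
    ∃ u : StrongDual ℝ (EuclideanSpace ℝ ι), |co u a| = 1 ∧ oth a u ≤ 1 / 10 ∧ 9 / 10 ≤ |g u| := by
  have hn : (1 : ℝ) ≤ Fintype.card ι := by exact_mod_cast Fintype.card_pos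
  have hη0 : 0 < η := by rw [hη]; positivity
  have hη1 : η ≤ 1 / 200 := by
    rw [hη]
    exact div_le_div_of_nonneg_left zero_le_one (by norm_num) (by linarith)
  have hηn : 10 * η * Fintype.card ι = 1 / 20 := by
    rw [hη]; field_simp; norm_num
  have hη2 : η ^ 2 ≤ η / 200 := by nlinarith
  have h1 : ENNReal.ofReal (2 - 3 * η ^ 2) < fnorm (fa a + g) := by
    refine lt_of_lt_of_le ?_ h
    have e : ENNReal.ofReal (1 - η ^ 2) * (1 + 1) = ENNReal.ofReal ((1 - η ^ 2) * 2) := by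
      rw [ENNReal.ofReal_mul (by nlinarith)]
      norm_num
    rw [e]
    refine (ENNReal.ofReal_lt_ofReal_iff (by nlinarith)).2 ?_
    have : 0 < η ^ 2 := by positivity
    linarith
  obtain ⟨m, x, hx, hsum⟩ := exists_of_lt_fnorm h1
  have hg' : fnorm g ≤ ENNReal.ofReal 1 := by simpa using hg
  -- abbreviations
  set P : Fin m → ℝ := fun i => |co (x i) a| with hP
  set Q : Fin m → ℝ := fun i => oth a (x i) with hQ
  have hP0 : ∀ i, 0 ≤ P i := fun i => abs_nonneg _
  have hQ0 : ∀ i, 0 ≤ Q i := fun i => oth_nonneg _ _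
  have s1 : ∑ i, P i ≤ 1 := sum_co_le hx a
  have s2 : ∑ i, fa a (x i) ≤ ∑ i, P i := Finset.sum_le_sum fun i _ => fa_le _ _
  have s3 : ∑ i, |g (x i)| ≤ 1 := sum_le_of_fnorm_le zero_le_one hg' hx
  have s4 : 2 - 3 * η ^ 2 < ∑ i, fa a (x i) + ∑ i, |g (x i)| := by
    refine hsum.trans_le ?_
    rw [← Finset.sum_add_distrib]
    refine Finset.sum_le_sum fun i _ => ?_
    calc |(fa a + g) (x i)| ≤ |fa a (x i)| + |g (x i)| := abs_add_le _ _
      _ = _ := by rw [abs_of_nonneg (fa_nonneg _ _)]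
  set I : Finset (Fin m) := Finset.univ.filter fun i => Q i < P i with hI
  set O : Finset (Fin m) := Finset.univ.filter fun i => ¬ Q i < P i with hO
  have split : ∀ F : Fin m → ℝ, ∑ i, F i = ∑ i ∈ I, F i + ∑ i ∈ O, F i := fun F =>
    (Finset.sum_filter_add_sum_filter_not _ _ _).symm
  have s5 : ∑ i, fa a (x i) = ∑ i ∈ I, P i - ∑ i ∈ I, Q i := by
    rw [split, ← Finset.sum_sub_distrib]
    have e1 : ∑ i ∈ O, fa a (x i) = 0 := Finset.sum_eq_zero fun i hi => by
      have : ¬ Q i < P i := (Finset.mem_filter.1 hi).2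
      exact max_eq_right (by push Not at this; linarith)
    rw [e1, add_zero]
    refine Finset.sum_congr rfl fun i hi => ?_
    have : Q i < P i := (Finset.mem_filter.1 hi).2
    exact max_eq_left (by linarith)
  have sP := split P
  have sIQ0 : 0 ≤ ∑ i ∈ I, Q i := Finset.sum_nonneg fun i _ => hQ0 i
  have sOP0 : 0 ≤ ∑ i ∈ O, P i := Finset.sum_nonneg fun i _ => hP0 i
  have s6 : ∑ i ∈ I, Q i ≤ 3 * η ^ 2 := by linarith
  have s7 : ∑ i ∈ O, P i ≤ 3 * η ^ 2 := by linarith
  have s8 : 1 - 3 * η ^ 2 ≤ ∑ i ∈ I, P i := by linarith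
  -- the other coordinates outside of the cone
  have s9 : ∀ j ∈ Finset.univ.erase a, ∑ i ∈ O, |co (x i) j| ≤ 10 * η := by
    intro j hj
    have hja : j ≠ a := Finset.ne_of_mem_erase hj
    set v : EuclideanSpace ℝ ι := EuclideanSpace.single a 1 + η • EuclideanSpace.single j 1 with hv
    have hvn : ‖v‖ ≤ 1 + η ^ 2 / 2 := by
      have e1 : ‖v‖ ^ 2 = 1 + η ^ 2 := by
        have horth : inner ℝ (EuclideanSpace.single a (1 : ℝ))
            (η • EuclideanSpace.single j (1 : ℝ)) = 0 := by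
          rw [inner_smul_right, EuclideanSpace.inner_single_left]
          simp [hja.symm]
        rw [hv, sq, norm_add_sq_eq_norm_sq_add_norm_sq_of_inner_eq_zero _ _ horth, norm_smul]
        simp [sq]
      have h0 := norm_nonneg v
      nlinarith [sq_nonneg (η ^ 2)]
    have hv0 : 0 < 1 + η ^ 2 / 2 := by positivity
    have h2 := hx ((1 + η ^ 2 / 2)⁻¹ • v) (by
      rw [norm_smul, norm_inv, Real.norm_of_nonneg hv0.le, inv_mul_le_iff₀ hv0, mul_one]
      exact hvn)
    have h3 : ∀ i, |x i ((1 + η ^ 2 / 2)⁻¹ • v)| = (1 + η ^ 2 / 2)⁻¹ * |x i v| := by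
      intro i
      rw [map_smul, smul_eq_mul, abs_mul, abs_of_pos (inv_pos.2 hv0)]
    simp_rw [h3] at h2
    rw [← Finset.mul_sum, inv_mul_le_iff₀ hv0, mul_one] at h2
    have hxv : ∀ i, x i v = co (x i) a + η * co (x i) j := by
      intro i
      rw [hv, map_add, map_smul, smul_eq_mul]
      rfl
    have hjQ : ∀ i, |co (x i) j| ≤ Q i := fun i =>
      Finset.single_le_sum (f := fun j => |co (x i) j|) (fun _ _ => abs_nonneg _) hj
    have hI' : ∑ i ∈ I, P i - η * ∑ i ∈ I, Q i ≤ ∑ i ∈ I, |x i v| := by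
      rw [Finset.mul_sum, ← Finset.sum_sub_distrib]
      refine Finset.sum_le_sum fun i _ => ?_
      rw [hxv]
      have e1 := abs_sub_abs_le_abs_sub (co (x i) a) (-(η * co (x i) j))
      rw [abs_neg, abs_mul, abs_of_pos hη0, sub_neg_eq_add] at e1
      have e2 := mul_le_mul_of_nonneg_left (hjQ i) hη0.le
      exact le_trans (by simp only [hP]; linarith) e1
    have hO' : η * ∑ i ∈ O, |co (x i) j| - ∑ i ∈ O, P i ≤ ∑ i ∈ O, |x i v| := by
      rw [Finset.mul_sum, ← Finset.sum_sub_distrib]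
      refine Finset.sum_le_sum fun i _ => ?_
      rw [hxv]
      have e1 := abs_sub_abs_le_abs_sub (η * co (x i) j) (-(co (x i) a))
      rw [abs_neg, abs_mul, abs_of_pos hη0, sub_neg_eq_add, add_comm (η * co (x i) j)] at e1
      exact e1
    rw [split fun i => |x i v|] at h2
    have h4 : η * ∑ i ∈ O, |co (x i) j| ≤ η ^ 2 / 2 + 6 * η ^ 2 + 3 * η ^ 2 * η := by
      have := mul_le_mul_of_nonneg_left s6 hη0.le
      linarith
    have h5 : η * ∑ i ∈ O, |co (x i) j| ≤ η * (10 * η) := by nlinarith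
    exact le_of_mul_le_mul_left h5 hη0
  have s10 : ∑ i ∈ O, Q i ≤ 10 * η * Fintype.card ι := by
    simp only [hQ, oth]
    rw [Finset.sum_comm]
    calc _ ≤ ∑ j ∈ Finset.univ.erase a, 10 * η := Finset.sum_le_sum s9
      _ = (Finset.univ.erase a).card * (10 * η) := by rw [Finset.sum_const, nsmul_eq_mul]
      _ ≤ Fintype.card ι * (10 * η) := by
          refine mul_le_mul_of_nonneg_right ?_ (by positivity)
          exact_mod_cast (Finset.card_le_univ _)
      _ = _ := by ring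
  have hgx : ∀ i, |g (x i)| ≤ P i + Q i := fun i => (abs_le_norm hp hg _).trans (norm_le_co _ a)
  have s11 : ∑ i ∈ O, |g (x i)| ≤ 3 * η ^ 2 + 1 / 20 := by
    calc _ ≤ ∑ i ∈ O, (P i + Q i) := Finset.sum_le_sum fun i _ => hgx i
      _ = ∑ i ∈ O, P i + ∑ i ∈ O, Q i := Finset.sum_add_distrib
      _ ≤ _ := by rw [← hηn]; exact add_le_add s7 s10
  have sg := split fun i => |g (x i)|
  have s12 : 19 / 20 - 6 * η ^ 2 ≤ ∑ i ∈ I, |g (x i)| := by linarith
  have s13 : ∃ i ∈ I, 9 / 10 * P i + 2 * Q i < |g (x i)| := by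
    by_contra hcon
    push Not at hcon
    have h2 := Finset.sum_le_sum hcon
    rw [Finset.sum_add_distrib, ← Finset.mul_sum, ← Finset.mul_sum] at h2
    nlinarith
  obtain ⟨i, _, hi⟩ := s13
  have hi2 := hgx i
  have hQP : 10 * Q i < P i := by linarith [hQ0 i]
  have hPi : 0 < P i := by linarith [hQ0 i]
  refine ⟨(P i)⁻¹ • x i, ?_, ?_, ?_⟩
  · have : co ((P i)⁻¹ • x i) a = (P i)⁻¹ * co (x i) a := by simp [co]
    rw [this, abs_mul, abs_of_pos (inv_pos.2 hPi)]
    exact inv_mul_cancel₀ hPi.ne'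
  · have : oth a ((P i)⁻¹ • x i) = (P i)⁻¹ * Q i := by
      simp only [oth, hQ, Finset.mul_sum]
      refine Finset.sum_congr rfl fun j _ => ?_
      have : co ((P i)⁻¹ • x i) j = (P i)⁻¹ * co (x i) j := by simp [co]
      rw [this, abs_mul, abs_of_pos (inv_pos.2 hPi)]
    rw [this, inv_mul_le_iff₀ hPi]
    linarith
  · rw [hp _ _ (inv_pos.2 hPi).le, abs_mul, abs_of_pos (inv_pos.2 hPi), ← div_eq_inv_mul,
      le_div_iff₀ hPi]
    linarith [hQ0 i]

/-- **The norm of the free Banach lattice over a Euclidean space of finite dimension at least two is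
not octahedral.** -/
theorem result (ι : Type*) [Fintype ι] [Nontrivial ι] : ¬ Octahedral (EuclideanSpace ℝ ι) := by
  classical
  intro hoct
  obtain ⟨a, b, hab⟩ := exists_pair_ne ι
  have : Nonempty ι := ⟨a⟩
  set η : ℝ := 1 / (200 * Fintype.card ι) with hη
  have hn : (1 : ℝ) ≤ Fintype.card ι := by exact_mod_cast Fintype.card_pos
  have hη0 : 0 < η := by rw [hη]; positivity
  have hlat : ∀ z ∈ Submodule.span ℝ ({fa a, fa b} : Set (StrongDual ℝ (EuclideanSpace ℝ ι) → ℝ)),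
      Lat z := by
    intro z hz
    obtain ⟨c, d, rfl⟩ := Submodule.mem_span_pair.1 hz
    exact Lat.add (Lat.smul c (lat_fa a)) (Lat.smul d (lat_fa b))
  obtain ⟨g, hg, hg1, hgY⟩ := hoct (Submodule.span ℝ {fa a, fa b})
    (FiniteDimensional.span_of_finite ℝ (by simp)) (fun z hz => (hlat z hz).inFBL) (η ^ 2)
    (by positivity)
  have ha := hgY (fa a) (Submodule.subset_span (by simp)) 1
  have hb := hgY (fa b) (Submodule.subset_span (by simp)) 1
  rw [fnorm_fa, abs_one, ENNReal.ofReal_one, one_smul] at ha hb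
  obtain ⟨u, hu1, hu2, hu3⟩ := key a hg.1 hg1.le hη ha
  obtain ⟨v, hv1, hv2, hv3⟩ := key b hg.1 hg1.le hη hb
  have hadm : Admissible ![(10 / 17 : ℝ) • u, (10 / 17 : ℝ) • v] := by
    intro w hw
    rw [Fin.sum_univ_two]
    simp only [Matrix.cons_val_zero, Matrix.cons_val_one, ContinuousLinearMap.smul_apply, smul_eq_mul,
      abs_mul]
    rw [abs_of_pos (by norm_num : (0 : ℝ) < 10 / 17)]
    have h1 := abs_apply_le u hw a
    have h2 := abs_apply_le v hw b
    rw [hu1, mul_one] at h1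
    rw [hv1, mul_one] at h2
    have h3 : |w a| ^ 2 + |w b| ^ 2 ≤ 1 := by
      have e1 : ‖w‖ ^ 2 = ∑ j, |w j| ^ 2 := by
        rw [EuclideanSpace.norm_sq_eq]
        simp
      have e2 : ∑ j ∈ ({a, b} : Finset ι), |w j| ^ 2 ≤ ∑ j, |w j| ^ 2 :=
        Finset.sum_le_sum_of_subset_of_nonneg (Finset.subset_univ _) fun _ _ _ => sq_nonneg _
      rw [Finset.sum_pair hab] at e2
      have e3 : ‖w‖ ^ 2 ≤ 1 := pow_le_one₀ (norm_nonneg _) hw
      linarith
    have h4 : |w a| + |w b| ≤ 3 / 2 := by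
      nlinarith [sq_nonneg (|w a| - |w b|), abs_nonneg (w a), abs_nonneg (w b)]
    linarith
  have h := sum_le_of_fnorm_le zero_le_one (by simpa using hg1.le) hadm
  rw [Fin.sum_univ_two] at h
  simp only [Matrix.cons_val_zero, Matrix.cons_val_one] at h
  rw [hg.1 _ _ (by norm_num), hg.1 _ _ (by norm_num), abs_mul, abs_mul,
    abs_of_pos (by norm_num : (0 : ℝ) < 10 / 17)] at h
  linarith

end

end Pool.Agent.Results.MP_8a6196_an.NotOctahedral
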